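import Pool.Agent.Helper27.BI.S5.St5n
import Pool.Agent.Helper34.BI.UNK2
import Pool.Agent.Helper34.BI.Null

/-! # Project BI, stage 5, module N2a -/

set_option autoImplicit false

open scoped Manifold ContDiff Topology ComplexConjugate
open Set Filter Pool.Agent.Helper65.Barb Pool.Agent.Helper18.BI

namespace Pool.Agent.Helper27.S5

namespace N2a

open Metric MeasureTheory

theorem exp_const (g : ℝ → ℂ) (hg : Continuous g) (h : ∀ t, Complex.exp (g t) = 1) (s t : ℝ) :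
    g s = g t := by
  have hdisc : DiscreteTopology (Complex.exp ⁻¹' {(1 : ℂ)} : Set ℂ) :=
    (Complex.isCoveringMapOn_exp (1 : ℂ) (by simp)).1
  exact isPreconnected_univ.constant_of_mapsTo (T := (Complex.exp ⁻¹' {(1 : ℂ)} : Set ℂ))
    (f := g) ⟨hdisc⟩ hg.continuousOn (fun w _ => h w) trivial trivial

/-- distance of a compact set to a disjoint closed set -/
theorem far {X E : Type*} [TopologicalSpace X] [NormedAddCommGroup E] {C : Set E}
    (hC : IsClosed C) {Q : Set X} (hQ : IsCompact Q) {H0 : X → E} (hH0 : Continuous H0)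
    (h2 : ∀ z ∈ Q, H0 z ∉ C) : ∃ η : ℝ, 0 < η ∧ ∀ z ∈ Q, ∀ c ∈ C, η ≤ dist (H0 z) c := by
  have hd : Disjoint (H0 '' Q) C := by
    rw [Set.disjoint_left]
    rintro _ ⟨z, hz, rfl⟩
    exact h2 z hz
  obtain ⟨η, hη, hdis⟩ := hd.exists_thickenings (hQ.image hH0) hC
  refine ⟨η, hη, fun z hz c hc => ?_⟩
  by_contra hlt
  push Not at hlt
  have h3 : H0 z ∈ thickening η (H0 '' Q) :=
    self_subset_thickening hη _ (mem_image_of_mem _ hz)
  have h4 : H0 z ∈ thickening η C := mem_thickening_iff.2 ⟨c, hc, hlt⟩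
  exact Set.disjoint_left.1 hdis h3 h4

/-- general position: a map of a three-dimensional space misses a countable closed set -/
theorem avoid {E : Type*} [NormedAddCommGroup E] [NormedSpace ℝ E] [FiniteDimensional ℝ E]
    (hE : 3 < Module.finrank ℝ E) {B C : Set E} (hB : B.Countable) (hBc : IsClosed B)
    (hBn : B.Nonempty) (hC : IsClosed C) {Q D : Set (ℝ × ℝ × ℝ)} (hQ : IsCompact Q)
    (hD : IsCompact D) {H0 : ℝ × ℝ × ℝ → E} (hH0 : Continuous H0) (h1 : ∀ z ∈ D, H0 z ∉ B)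
    (h2 : ∀ z ∈ Q, H0 z ∉ C) :
    ∃ H2 : ℝ × ℝ × ℝ → E, Continuous H2 ∧ (∀ z ∈ D, H2 z = H0 z) ∧ (∀ z, H2 z ∉ B) ∧
      ∀ z ∈ Q, H2 z ∉ C := by
  borelize E
  obtain ⟨η₁, hη1, hfar1⟩ := far hBc hD hH0 h1
  obtain ⟨η₂, hη2, hfar2⟩ := far hC hQ hH0 h2
  set η := min η₁ η₂ with hη
  have hη0 : 0 < η := lt_min hη1 hη2
  have hle1 : η ≤ η₁ := min_le_left _ _
  have hle2 : η ≤ η₂ := min_le_right _ _
  set d : ℝ × ℝ × ℝ → ℝ := fun z => infDist (H0 z) B with hd
  have hdc : Continuous d := (continuous_infDist_pt B).comp hH0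
  set χ : ℝ × ℝ × ℝ → ℝ := fun z => max 0 (min 1 (2 - 2 / η * d z)) with hχ
  have hχc : Continuous χ := by fun_prop
  have hχ0 : ∀ z, 0 ≤ χ z := fun z => le_max_left _ _
  have hχ1 : ∀ z, χ z ≤ 1 := fun z => max_le zero_le_one (min_le_left _ _)
  obtain ⟨H1, hH1, hH1d, -⟩ := hH0.exists_contDiff_approx (ε := fun _ => η / 4) ⊤
    continuous_const (fun _ => by positivity)
  -- the translation
  obtain ⟨v, hv, hvB⟩ : ∃ v : E, ‖v‖ < η / 4 ∧ ∀ z, H1 z + v ∉ B := by
    let μ : Measure E := Measure.addHaar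
    have hnull : μ (⋃ b ∈ B, (fun z => b - H1 z) '' univ) = 0 := by
      rw [measure_biUnion_null_iff hB]
      intro b _
      refine Pool.Agent.Helper34.BI.null_image μ ?_ ?_
      · simpa using hE
      · have h3 : Differentiable ℝ H1 := hH1.differentiable (by simp)
        exact (h3.const_sub b).differentiableOn
    have hpos : 0 < μ (ball (0 : E) (η / 4)) := measure_ball_pos μ 0 (by positivity)
    by_contra hno
    push Not at hno
    have hsub : ball (0 : E) (η / 4) ⊆ ⋃ b ∈ B, (fun z => b - H1 z) '' univ := by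
      intro v hv
      rw [mem_ball_zero_iff] at hv
      obtain ⟨z, hz⟩ := hno v hv
      rw [mem_iUnion₂]
      refine ⟨H1 z + v, hz, z, trivial, ?_⟩
      simp
    exact hpos.ne' (measure_mono_null hsub hnull)
  set H2 : ℝ × ℝ × ℝ → E := fun z => H0 z + χ z • (H1 z - H0 z + v) with hH2
  have hH2c : Continuous H2 := by
    have := hH1.continuous
    fun_prop
  have hclose : ∀ z, dist (H0 z) (H2 z) < η / 2 := by
    intro z
    rw [dist_comm, dist_eq_norm, hH2]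
    simp only [add_sub_cancel_left]
    have h3 : ‖H1 z - H0 z‖ < η / 4 := by
      have := hH1d z
      rwa [dist_eq_norm] at this
    calc ‖χ z • (H1 z - H0 z + v)‖ = χ z * ‖H1 z - H0 z + v‖ := by
          rw [norm_smul, Real.norm_of_nonneg (hχ0 z)]
      _ ≤ 1 * ‖H1 z - H0 z + v‖ := mul_le_mul_of_nonneg_right (hχ1 z) (norm_nonneg _)
      _ ≤ ‖H1 z - H0 z‖ + ‖v‖ := by
          rw [one_mul]
          exact norm_add_le _ _
      _ < η / 2 := by linarith
  refine ⟨H2, hH2c, ?_, ?_, ?_⟩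
  · intro z hz
    have h3 : η ≤ d z := hle1.trans ((le_infDist hBn).2 fun y hy => hfar1 z hz y hy)
    have h4 : χ z = 0 := by
      refine max_eq_left ((min_le_right _ _).trans ?_)
      have h5 : 2 / η * η ≤ 2 / η * d z := mul_le_mul_of_nonneg_left h3 (by positivity)
      rw [div_mul_cancel₀ _ hη0.ne'] at h5
      linarith
    rw [hH2]
    simp only [h4, zero_smul, add_zero]
  · intro z hz
    by_cases hdz : d z ≤ η / 2
    · have h4 : χ z = 1 := by
        have h5 : 2 / η * d z ≤ 2 / η * (η / 2) := mul_le_mul_of_nonneg_left hdz (by positivity)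
        have h6 : 2 / η * (η / 2) = 1 := by field_simp
        rw [h6] at h5
        have h7 : min 1 (2 - 2 / η * d z) = 1 := min_eq_left (by linarith)
        rw [hχ]
        simp only [h7]
        norm_num
      apply hvB z
      rw [hH2] at hz
      simp only [h4, one_smul] at hz
      convert hz using 1
      abel
    · push Not at hdz
      have h3 := infDist_le_dist_of_mem (x := H0 z) hz
      have h4 := hclose z
      have h5 : d z = infDist (H0 z) B := rfl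
      linarith
  · intro z hz hzC
    have h3 := hfar2 z hz _ hzC
    have h4 := hclose z
    linarith

/-! ### the coordinates -/

/-- the first coordinate, rescaled -/
noncomputable def sgm (ρ : ℝ) (p : R4) : ℝ := (p.1 - 1 / 2) / ρ

/-- the squared norm of the second coordinate, rescaled -/
noncomputable def n1 (ρ : ℝ) (p : R4) : ℝ := rsq 1 p / ρ ^ 2

/-- zero exactly on the round sphere -/
noncomputable def ZZ (ρ : ℝ) (p : R4) : ℂ := ⟨2 * sgm ρ p, n1 ρ p + sgm ρ p ^ 2 - 1⟩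

noncomputable def NN (ρ : ℝ) (p : R4) : ℝ := n1 ρ p + sgm ρ p ^ 2 + 1

noncomputable def ww (ρ : ℝ) (p : R4) : ℝ × ℂ :=
  (2 / NN ρ p * ((p.2.1 - 1) / ρ), ((2 / NN ρ p / ρ : ℝ) : ℂ) * p.2.2)

noncomputable def rr (x : R4) : ℝ := Real.sqrt (1 - nsq x.2)

noncomputable def dd (x : R4) : ℝ := 1 - rr x * Real.sin x.1

noncomputable def PP (ρ : ℝ) (x : R4) : R4 :=
  (1 / 2 + ρ * (rr x * Real.cos x.1 / dd x), (1 + ρ * (x.2.1 / dd x), ((ρ / dd x : ℝ) : ℂ) * x.2.2))

theorem n1_nonneg (ρ : ℝ) (p : R4) : 0 ≤ n1 ρ p := by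
  unfold n1 rsq nsq
  positivity

theorem NN_pos (ρ : ℝ) (p : R4) : 0 < NN ρ p := by
  have := n1_nonneg ρ p
  unfold NN
  positivity

theorem ZZ_ne {ρ : ℝ} (hρ : 0 < ρ) {p : R4} (hp : ¬(p.1 = 1 / 2 ∧ rsq 1 p = ρ ^ 2)) :
    ZZ ρ p ≠ 0 := by
  intro h
  have h1 := congrArg Complex.re h
  have h2 := congrArg Complex.im h
  simp only [ZZ, Complex.zero_re, Complex.zero_im] at h1 h2
  have h3 : sgm ρ p = 0 := by linarith
  rw [h3] at h2
  apply hp
  constructor
  · unfold sgm at h3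
    rw [div_eq_zero_iff] at h3
    rcases h3 with h3 | h3
    · linarith
    · exact absurd h3 hρ.ne'
  · have h4 : n1 ρ p = 1 := by linarith
    unfold n1 at h4
    rw [div_eq_one_iff_eq (by positivity)] at h4
    exact h4

theorem nsq_ww {ρ : ℝ} (hρ : 0 < ρ) (p : R4) : nsq (ww ρ p) = 4 * n1 ρ p / NN ρ p ^ 2 := by
  have hN := NN_pos ρ p
  have h1 : n1 ρ p = ((p.2.1 - 1) ^ 2 + p.2.2.re ^ 2 + p.2.2.im ^ 2) / ρ ^ 2 := rfl
  rw [h1]
  unfold nsq ww
  simp only [Complex.mul_re, Complex.mul_im, Complex.ofReal_re, Complex.ofReal_im, zero_mul,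
    sub_zero, add_zero]
  field_simp
  ring

theorem one_sub_nsq {ρ : ℝ} (hρ : 0 < ρ) (p : R4) {R θ : ℝ} (h1 : 2 * sgm ρ p = R * Real.cos θ)
    (h2 : n1 ρ p + sgm ρ p ^ 2 - 1 = R * Real.sin θ) :
    1 - nsq (ww ρ p) = (R / NN ρ p) ^ 2 := by
  have hN := NN_pos ρ p
  rw [nsq_ww hρ, div_pow, eq_div_iff (by positivity), sub_mul, div_mul_cancel₀ _ (by positivity)]
  have h3 : R ^ 2 = (R * Real.cos θ) ^ 2 + (R * Real.sin θ) ^ 2 := by
    have := Real.sin_sq_add_cos_sq θ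
    nlinarith
  rw [h3, ← h1, ← h2]
  unfold NN
  ring

theorem rr_ww {ρ : ℝ} (hρ : 0 < ρ) (p : R4) {R θ : ℝ} (hR : 0 < R)
    (h1 : 2 * sgm ρ p = R * Real.cos θ) (h2 : n1 ρ p + sgm ρ p ^ 2 - 1 = R * Real.sin θ) :
    rr (θ, ww ρ p) = R / NN ρ p := by
  unfold rr
  rw [one_sub_nsq hρ p h1 h2]
  exact Real.sqrt_sq (div_nonneg hR.le (NN_pos ρ p).le)

theorem dd_ww {ρ : ℝ} (hρ : 0 < ρ) (p : R4) {R θ : ℝ} (hR : 0 < R)
    (h1 : 2 * sgm ρ p = R * Real.cos θ) (h2 : n1 ρ p + sgm ρ p ^ 2 - 1 = R * Real.sin θ) :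
    dd (θ, ww ρ p) = 2 / NN ρ p := by
  have hN := NN_pos ρ p
  unfold dd
  rw [rr_ww hρ p hR h1 h2]
  show 1 - R / NN ρ p * Real.sin θ = 2 / NN ρ p
  rw [div_mul_eq_mul_div, ← h2, eq_div_iff hN.ne', sub_mul, div_mul_cancel₀ _ hN.ne']
  unfold NN
  ring

theorem PP_ww {ρ : ℝ} (hρ : 0 < ρ) (p : R4) {R θ : ℝ} (hR : 0 < R)
    (h1 : 2 * sgm ρ p = R * Real.cos θ) (h2 : n1 ρ p + sgm ρ p ^ 2 - 1 = R * Real.sin θ) :
    PP ρ (θ, ww ρ p) = p := by
  have hN := NN_pos ρ p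
  unfold PP
  rw [rr_ww hρ p hR h1 h2, dd_ww hρ p hR h1 h2]
  refine Prod.ext ?_ (Prod.ext ?_ ?_)
  · show 1 / 2 + ρ * (R / NN ρ p * Real.cos θ / (2 / NN ρ p)) = p.1
    have h3 : R / NN ρ p * Real.cos θ / (2 / NN ρ p) = (R * Real.cos θ) / 2 := by
      field_simp
    rw [h3, ← h1]
    unfold sgm
    field_simp
    ring
  · show 1 + ρ * ((2 / NN ρ p * ((p.2.1 - 1) / ρ)) / (2 / NN ρ p)) = p.2.1
    field_simp
    ring
  · show ((ρ / (2 / NN ρ p) : ℝ) : ℂ) * (((2 / NN ρ p / ρ : ℝ) : ℂ) * p.2.2) = p.2.2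
    rw [← mul_assoc, ← Complex.ofReal_mul]
    have h3 : ρ / (2 / NN ρ p) * (2 / NN ρ p / ρ) = 1 := by
      field_simp
    rw [h3, Complex.ofReal_one, one_mul]

theorem nsq_lt {ρ : ℝ} (hρ : 0 < ρ) (p : R4) {R θ : ℝ} (hR : 0 < R)
    (h1 : 2 * sgm ρ p = R * Real.cos θ) (h2 : n1 ρ p + sgm ρ p ^ 2 - 1 = R * Real.sin θ) :
    nsq (ww ρ p) < 1 := by
  have h3 := one_sub_nsq hρ p h1 h2
  have h4 : 0 < (R / NN ρ p) ^ 2 := by
    have := NN_pos ρ p
    positivity
  linarith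

/-- the bad points -/
def BB : Set R4 := {x | x.2 = 0 ∧ Real.sin x.1 = 1}

theorem BB_closed : IsClosed BB :=
  (isClosed_eq continuous_snd continuous_const).inter
    (isClosed_eq (Real.continuous_sin.comp continuous_fst) continuous_const)

theorem BB_countable : BB.Countable := by
  refine (Set.countable_range (fun k : ℤ => ((Real.pi / 2 + k * (2 * Real.pi), 0) : R4))).mono ?_
  rintro ⟨θ, w⟩ ⟨h1, h2⟩
  simp only at h1 h2
  obtain ⟨k, hk⟩ := Real.sin_eq_one_iff.1 h2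
  exact ⟨k, by simp only [hk, h1]⟩

theorem BB_nonempty : BB.Nonempty := ⟨(Real.pi / 2, 0), rfl, Real.sin_pi_div_two⟩

theorem not_bad {ρ : ℝ} (hρ : 0 < ρ) (p : R4) {R θ : ℝ} (hR : 0 < R)
    (h1 : 2 * sgm ρ p = R * Real.cos θ) (h2 : n1 ρ p + sgm ρ p ^ 2 - 1 = R * Real.sin θ) :
    ((θ, ww ρ p) : R4) ∉ BB := by
  rintro ⟨h3, h4⟩
  simp only at h3 h4
  have hN := NN_pos ρ p
  have h5 : nsq (ww ρ p) = 0 := by
    rw [h3]
    simp [nsq]
  rw [nsq_ww hρ, div_eq_zero_iff] at h5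
  have h6 : n1 ρ p = 0 := by
    rcases h5 with h5 | h5
    · linarith
    · exact absurd h5 (by positivity)
  have h7 : Real.cos θ = 0 := by
    have := Real.sin_sq_add_cos_sq θ
    rw [h4] at this
    nlinarith
  rw [h7, mul_zero] at h1
  have h8 : sgm ρ p = 0 := by linarith
  rw [h6, h8, h4] at h2
  linarith

theorem nsq_nonneg (w : ℝ × ℂ) : 0 ≤ nsq w := by
  unfold nsq
  positivity

theorem dd_ne {x : R4} (h1 : nsq x.2 < 1) (h2 : x ∉ BB) : dd x ≠ 0 := by
  intro h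
  unfold dd at h
  have h3 : rr x * Real.sin x.1 = 1 := by linarith
  have h4 : rr x ^ 2 = 1 - nsq x.2 := Real.sq_sqrt (by linarith)
  have h5 := nsq_nonneg x.2
  have h6 := Real.sin_sq_add_cos_sq x.1
  have h7 : 0 ≤ rr x := Real.sqrt_nonneg _
  have h8 : rr x ≤ 1 := by nlinarith
  have h9 := Real.sin_le_one x.1
  have h10 : 0 < rr x := by
    rcases h7.lt_or_eq with h | h
    · exact h
    · rw [← h, zero_mul] at h3
      linarith
  have h11 : rr x = 1 := by nlinarith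
  have h12 : Real.sin x.1 = 1 := by
    rw [h11, one_mul] at h3
    exact h3
  apply h2
  refine ⟨?_, h12⟩
  rw [h11] at h4
  have h13 : nsq x.2 = 0 := by linarith
  unfold nsq at h13
  have e1 : x.2.1 = 0 := by nlinarith [sq_nonneg x.2.1, sq_nonneg x.2.2.re, sq_nonneg x.2.2.im]
  have e2 : x.2.2.re = 0 := by nlinarith [sq_nonneg x.2.1, sq_nonneg x.2.2.re, sq_nonneg x.2.2.im]
  have e3 : x.2.2.im = 0 := by nlinarith [sq_nonneg x.2.1, sq_nonneg x.2.2.re, sq_nonneg x.2.2.im]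
  exact Prod.ext e1 (Complex.ext e2 e3)

theorem PP_off {ρ : ℝ} (hρ : 0 < ρ) {x : R4} (h1 : nsq x.2 < 1) (h2 : x ∉ BB) :
    ¬((PP ρ x).1 = 1 / 2 ∧ rsq 1 (PP ρ x) = ρ ^ 2) := by
  rintro ⟨h3, h4⟩
  have hd := dd_ne h1 h2
  have h5 : rr x ^ 2 = 1 - nsq x.2 := Real.sq_sqrt (by linarith)
  have h6 : 0 < rr x := Real.sqrt_pos.2 (by linarith)
  have h7 : Real.cos x.1 = 0 := by
    have e : (PP ρ x).1 = 1 / 2 + ρ * (rr x * Real.cos x.1 / dd x) := rfl
    rw [e] at h3
    have e1 : ρ * (rr x * Real.cos x.1 / dd x) = 0 := by linarith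
    rw [mul_eq_zero, div_eq_zero_iff, mul_eq_zero] at e1
    rcases e1 with e1 | (e1 | e1) | e1
    · exact absurd e1 hρ.ne'
    · exact absurd e1 h6.ne'
    · exact e1
    · exact absurd e1 hd
  have h8 : rsq 1 (PP ρ x) = ρ ^ 2 * nsq x.2 / dd x ^ 2 := by
    unfold rsq nsq PP
    simp only [Complex.mul_re, Complex.mul_im, Complex.ofReal_re, Complex.ofReal_im, zero_mul,
      sub_zero, add_zero]
    field_simp
    ring
  rw [h8, div_eq_iff (by positivity)] at h4
  have h9 : nsq x.2 = dd x ^ 2 := by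
    have : ρ ^ 2 ≠ 0 := by positivity
    exact mul_left_cancel₀ this h4
  have h10 : Real.sin x.1 ^ 2 = 1 := by
    have := Real.sin_sq_add_cos_sq x.1
    rw [h7] at this
    linarith
  unfold dd at h9
  have h11 : rr x * Real.sin x.1 = rr x ^ 2 := by nlinarith
  have h12 : Real.sin x.1 = rr x := by
    rw [pow_two] at h11
    exact mul_left_cancel₀ h6.ne' h11
  have h13 : dd x = 0 := by
    unfold dd
    rw [← h12, ← pow_two, h10]
    norm_num
  exact hd h13

theorem cont_nsq : Continuous nsq := by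
  unfold nsq
  fun_prop

theorem cont_rr : Continuous rr :=
  Real.continuous_sqrt.comp (continuous_const.sub (cont_nsq.comp continuous_snd))

theorem cont_dd : Continuous dd :=
  continuous_const.sub (cont_rr.mul (Real.continuous_sin.comp continuous_fst))

theorem cont_PP (ρ : ℝ) {S : Set (ℝ × ℝ × ℝ)} {H2 : ℝ × ℝ × ℝ → R4} (hH : Continuous H2)
    (h : ∀ z ∈ S, dd (H2 z) ≠ 0) : ContinuousOn (fun z => PP ρ (H2 z)) S := by
  have hd : ContinuousOn (fun z => dd (H2 z)) S := (cont_dd.comp hH).continuousOn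
  have hr : ContinuousOn (fun z => rr (H2 z)) S := (cont_rr.comp hH).continuousOn
  have h1 : ContinuousOn (fun z => Real.cos (H2 z).1) S :=
    (Real.continuous_cos.comp (continuous_fst.comp hH)).continuousOn
  have h2 : ContinuousOn (fun z => (H2 z).2.1) S :=
    (continuous_fst.comp (continuous_snd.comp hH)).continuousOn
  have h3 : ContinuousOn (fun z => (H2 z).2.2) S :=
    (continuous_snd.comp (continuous_snd.comp hH)).continuousOn
  refine ContinuousOn.prodMk ?_ (ContinuousOn.prodMk ?_ ?_)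
  · exact continuousOn_const.add (continuousOn_const.mul ((hr.mul h1).div hd h))
  · exact continuousOn_const.add (continuousOn_const.mul (h2.div hd h))
  · exact (Complex.continuous_ofReal.comp_continuousOn (continuousOn_const.div hd h)).mul h3

theorem cont_n1 (ρ : ℝ) : Continuous (n1 ρ) := by
  unfold n1 rsq nsq
  fun_prop

theorem cont_sgm (ρ : ℝ) : Continuous (sgm ρ) := by
  unfold sgm
  fun_prop

theorem cont_ZZ (ρ : ℝ) : Continuous (ZZ ρ) := by
  have h1 := cont_n1 ρ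
  have h2 := cont_sgm ρ
  have h3 : ZZ ρ = fun p => ((2 * sgm ρ p : ℝ) : ℂ) +
      ((n1 ρ p + sgm ρ p ^ 2 - 1 : ℝ) : ℂ) * Complex.I := by
    funext p
    apply Complex.ext
    · simp only [ZZ, Complex.add_re, Complex.ofReal_re, Complex.mul_re, Complex.I_re,
        Complex.ofReal_im, Complex.I_im, mul_zero, zero_mul, sub_zero, add_zero]
    · simp only [ZZ, Complex.add_im, Complex.ofReal_im, Complex.mul_im, Complex.ofReal_re,
        Complex.I_im, Complex.I_re, mul_one, mul_zero, add_zero, zero_add]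
  rw [h3]
  exact (Complex.continuous_ofReal.comp (by fun_prop)).add
    ((Complex.continuous_ofReal.comp (by fun_prop)).mul continuous_const)

theorem cont_ww {ρ : ℝ} : Continuous (ww ρ) := by
  have h1 := cont_n1 ρ
  have h2 := cont_sgm ρ
  have h3 : Continuous (NN ρ) := by
    unfold NN
    fun_prop
  have h4 : ∀ p, NN ρ p ≠ 0 := fun p => (NN_pos ρ p).ne'
  have h5 : Continuous fun p => 2 / NN ρ p := continuous_const.div h3 h4
  refine Continuous.prodMk ?_ ?_
  · exact h5.mul (by fun_prop)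
  · exact (Complex.continuous_ofReal.comp (h5.div_const ρ)).mul (by fun_prop)

theorem nsq_conv {w w' : ℝ × ℂ} (h1 : nsq w < 1) (h2 : nsq w' < 1) {u : ℝ} (hu0 : 0 ≤ u)
    (hu1 : u ≤ 1) : nsq ((1 - u) • w + u • w') < 1 := by
  have h3 : nsq ((1 - u) • w + u • w') = (1 - u) * nsq w + u * nsq w' -
      u * (1 - u) * ((w.1 - w'.1) ^ 2 + (w.2.re - w'.2.re) ^ 2 + (w.2.im - w'.2.im) ^ 2) := by
    unfold nsq
    simp only [Prod.fst_add, Prod.snd_add, Prod.smul_fst, Prod.smul_snd, smul_eq_mul,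
      Complex.add_re, Complex.add_im, Complex.smul_re, Complex.smul_im]
    ring
  rw [h3]
  have h4 : 0 ≤ u * (1 - u) * ((w.1 - w'.1) ^ 2 + (w.2.re - w'.2.re) ^ 2 +
      (w.2.im - w'.2.im) ^ 2) := by
    have : 0 ≤ 1 - u := by linarith
    positivity
  rcases hu0.lt_or_eq with hu | hu
  · nlinarith
  · rw [← hu] at h4 ⊢
    linarith

end N2a

open N2a in
theorem m_N2a : StN2a := by
  intro ρ m₀ m₁ f γ hρ hm hf hoff hbd
  -- extend by projections
  set p1 : ℝ → ℝ := fun x => (projIcc (0 : ℝ) 1 zero_le_one x : ℝ) with hp1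
  set p2 : ℝ → ℝ := fun x => (projIcc m₀ m₁ hm.le x : ℝ) with hp2
  have hp1c : Continuous p1 := continuous_subtype_val.comp continuous_projIcc
  have hp2c : Continuous p2 := continuous_subtype_val.comp continuous_projIcc
  have hp1m : ∀ x, p1 x ∈ Icc (0 : ℝ) 1 := fun x => (projIcc (0 : ℝ) 1 zero_le_one x).2
  have hp2m : ∀ x, p2 x ∈ Icc m₀ m₁ := fun x => (projIcc m₀ m₁ hm.le x).2
  have hp1e : ∀ x ∈ Icc (0 : ℝ) 1, p1 x = x := fun x hx => by
    rw [hp1]
    simp only [projIcc_of_mem zero_le_one hx]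
  have hp2e : ∀ x ∈ Icc m₀ m₁, p2 x = x := fun x hx => by
    rw [hp2]
    simp only [projIcc_of_mem hm.le hx]
  have h0m : (0 : ℝ) ∈ Icc (0 : ℝ) 1 := ⟨le_rfl, zero_le_one⟩
  have h1m : (1 : ℝ) ∈ Icc (0 : ℝ) 1 := ⟨zero_le_one, le_rfl⟩
  have hm0 : m₀ ∈ Icc m₀ m₁ := ⟨le_rfl, hm.le⟩
  have hm1 : m₁ ∈ Icc m₀ m₁ := ⟨hm.le, le_rfl⟩
  set fe : ℝ × ℝ → R4 := fun z => f (p1 z.1, p2 z.2) with hfe
  have hfec : Continuous fe := by
    refine hf.comp_continuous ((hp1c.comp continuous_fst).prodMk (hp2c.comp continuous_snd)) ?_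
    intro z
    exact ⟨hp1m _, hp2m _⟩
  have hfoff : ∀ z, ¬((fe z).1 = 1 / 2 ∧ rsq 1 (fe z) = ρ ^ 2) := fun z =>
    hoff _ ⟨hp1m _, hp2m _⟩
  obtain ⟨L, hL, hLe⟩ := Pool.Agent.Helper34.BI.UNK2.lift_log (fun z : ℂ => ZZ ρ (fe (z.re, z.im)))
    ((cont_ZZ ρ).comp (hfec.comp (Complex.continuous_re.prodMk Complex.continuous_im)))
    (fun z => ZZ_ne hρ (hfoff _))
  set L' : ℝ × ℝ → ℂ := fun z => L ⟨z.1, z.2⟩ with hL'
  have hL'c : Continuous L' := by
    have h3 : L' = fun z => L ((z.1 : ℂ) + (z.2 : ℂ) * Complex.I) := by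
      funext z
      rw [hL']
      simp only
      congr 1
      apply Complex.ext <;> simp
    rw [h3]
    exact hL.comp (by fun_prop)
  have hLe' : ∀ z : ℝ × ℝ, Complex.exp (L' z) = ZZ ρ (fe z) := fun z => hLe ⟨z.1, z.2⟩
  -- radius and angle
  have hre : ∀ z : ℝ × ℝ, 2 * sgm ρ (fe z) = Real.exp (L' z).re * Real.cos (L' z).im := by
    intro z
    have h3 := congrArg Complex.re (hLe' z)
    rw [Complex.exp_re] at h3
    exact h3.symm
  have him : ∀ z : ℝ × ℝ, n1 ρ (fe z) + sgm ρ (fe z) ^ 2 - 1 =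
      Real.exp (L' z).re * Real.sin (L' z).im := by
    intro z
    have h3 := congrArg Complex.im (hLe' z)
    rw [Complex.exp_im] at h3
    exact h3.symm
  -- constancy on the boundary
  have hc0 : ∀ x y : ℝ, L' (x, m₀) = L' (y, m₀) := by
    intro x y
    have h3 := exp_const (fun t => L' (t, m₀) - L' (0, m₀)) (by fun_prop) (fun t => by
      rw [Complex.exp_sub, hLe', hLe']
      have e1 : fe (t, m₀) = γ m₀ := by
        rw [hfe]
        simp only [hp2e m₀ hm0]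
        exact hbd _ (hp1m t) _ hm0 (Or.inr (Or.inr (Or.inl rfl)))
      have e2 : fe (0, m₀) = γ m₀ := by
        rw [hfe]
        simp only [hp2e m₀ hm0]
        exact hbd _ (hp1m 0) _ hm0 (Or.inr (Or.inr (Or.inl rfl)))
      rw [e1, ← e2]
      exact div_self (ZZ_ne hρ (hfoff _))) x y
    simpa using h3
  have hc1 : ∀ x y : ℝ, L' (x, m₁) = L' (y, m₁) := by
    intro x y
    have h3 := exp_const (fun t => L' (t, m₁) - L' (0, m₁)) (by fun_prop) (fun t => by
      rw [Complex.exp_sub, hLe', hLe']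
      have e1 : fe (t, m₁) = γ m₁ := by
        rw [hfe]
        simp only [hp2e m₁ hm1]
        exact hbd _ (hp1m t) _ hm1 (Or.inr (Or.inr (Or.inr rfl)))
      have e2 : fe (0, m₁) = γ m₁ := by
        rw [hfe]
        simp only [hp2e m₁ hm1]
        exact hbd _ (hp1m 0) _ hm1 (Or.inr (Or.inr (Or.inr rfl)))
      rw [e1, ← e2]
      exact div_self (ZZ_ne hρ (hfoff _))) x y
    simpa using h3
  have hfe01 : ∀ s : ℝ, fe (1, s) = fe (0, s) := by
    intro s
    rw [hfe]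
    simp only [hp1e 1 h1m, hp1e 0 h0m]
    rw [hbd 1 h1m _ (hp2m s) (Or.inr (Or.inl rfl)), hbd 0 h0m _ (hp2m s) (Or.inl rfl)]
  have hc2 : ∀ s : ℝ, L' (1, s) = L' (0, s) := by
    intro s
    have h3 := exp_const (fun t => L' (1, t) - L' (0, t)) (by fun_prop) (fun t => by
      rw [Complex.exp_sub, hLe', hLe', hfe01]
      exact div_self (ZZ_ne hρ (hfoff _))) s m₀
    rw [hc0 1 0, sub_self] at h3
    exact sub_eq_zero.1 h3
  -- the maps into the model
  set F : ℝ × ℝ → R4 := fun z => ((L' z).im, ww ρ (fe z)) with hF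
  have hFc : Continuous F := by
    refine Continuous.prodMk (Complex.continuous_im.comp hL'c) (cont_ww.comp hfec)
  have hPF : ∀ z, PP ρ (F z) = fe z := fun z => PP_ww hρ _ (Real.exp_pos _) (hre z) (him z)
  have hFb : ∀ z, F z ∉ BB := fun z => not_bad hρ _ (Real.exp_pos _) (hre z) (him z)
  have hFn : ∀ z, nsq (F z).2 < 1 := fun z => nsq_lt hρ _ (Real.exp_pos _) (hre z) (him z)
  have hFbd : ∀ q ∈ Icc (0 : ℝ) 1, ∀ s ∈ Icc m₀ m₁, (q = 0 ∨ q = 1 ∨ s = m₀ ∨ s = m₁) →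
      F (q, s) = F (0, s) := by
    intro q hq s hs h
    have e1 : fe (q, s) = fe (0, s) := by
      rw [hfe]
      simp only [hp1e q hq, hp1e 0 h0m, hp2e s hs]
      rw [hbd q hq s hs h, hbd 0 h0m s hs (Or.inl rfl)]
    have e2 : L' (q, s) = L' (0, s) := by
      rcases h with h | h | h | h
      · rw [h]
      · rw [h]
        exact hc2 s
      · rw [h]
        exact hc0 _ _
      · rw [h]
        exact hc1 _ _
    rw [hF]
    simp only [e1, e2]
  set H0 : ℝ × ℝ × ℝ → R4 := fun z => (1 - p1 z.1) • F (z.2.1, z.2.2) + p1 z.1 • F (0, z.2.2)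
    with hH0
  have hH0c : Continuous H0 := by
    have e1 : Continuous fun z : ℝ × ℝ × ℝ => p1 z.1 := hp1c.comp continuous_fst
    have e2 : Continuous fun z : ℝ × ℝ × ℝ => F (z.2.1, z.2.2) := hFc.comp (by fun_prop)
    have e3 : Continuous fun z : ℝ × ℝ × ℝ => F (0, z.2.2) := hFc.comp (by fun_prop)
    exact ((continuous_const.sub e1).smul e2).add (e1.smul e3)
  set Q : Set (ℝ × ℝ × ℝ) := Icc (0 : ℝ) 1 ×ˢ (Icc (0 : ℝ) 1 ×ˢ Icc m₀ m₁) with hQ
  have hQc : IsCompact Q := isCompact_Icc.prod (isCompact_Icc.prod isCompact_Icc)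
  set D : Set (ℝ × ℝ × ℝ) := Q ∩ ({z | z.1 = 0} ∪ {z | z.1 = 1} ∪ {z | z.2.1 = 0} ∪
    {z | z.2.1 = 1} ∪ {z | z.2.2 = m₀} ∪ {z | z.2.2 = m₁}) with hD
  have hDc : IsCompact D := by
    refine hQc.inter_right ?_
    refine (((((IsClosed.union ?_ ?_).union ?_).union ?_).union ?_).union ?_)
    · exact isClosed_eq (by fun_prop) continuous_const
    · exact isClosed_eq (by fun_prop) continuous_const
    · exact isClosed_eq (by fun_prop) continuous_const
    · exact isClosed_eq (by fun_prop) continuous_const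
    · exact isClosed_eq (by fun_prop) continuous_const
    · exact isClosed_eq (by fun_prop) continuous_const
  -- the values on the boundary
  have hH00 : ∀ q s : ℝ, H0 (0, q, s) = F (q, s) := by
    intro q s
    rw [hH0]
    simp only [hp1e 0 h0m, sub_zero, one_smul, zero_smul, add_zero]
  have hH01 : ∀ q s : ℝ, H0 (1, q, s) = F (0, s) := by
    intro q s
    rw [hH0]
    simp only [hp1e 1 h1m, sub_self, one_smul, zero_smul, zero_add]
  have hH0b : ∀ u : ℝ, ∀ q ∈ Icc (0 : ℝ) 1, ∀ s ∈ Icc m₀ m₁,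
      (q = 0 ∨ q = 1 ∨ s = m₀ ∨ s = m₁) → H0 (u, q, s) = F (0, s) := by
    intro u q hq s hs h
    rw [hH0]
    simp only [hFbd q hq s hs h]
    rw [← add_smul, sub_add_cancel, one_smul]
  have hH0D : ∀ z ∈ D, H0 z ∉ BB := by
    rintro ⟨u, q, s⟩ ⟨⟨-, hq, hs⟩, hz⟩
    simp only [mem_union, mem_ofPred_eq] at hz
    simp only at hq hs
    rcases hz with ((((hz | hz) | hz) | hz) | hz) | hz
    · rw [hz, hH00]
      exact hFb _
    · rw [hz, hH01]
      exact hFb _
    · rw [hH0b u q hq s hs (Or.inl hz)]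
      exact hFb _
    · rw [hH0b u q hq s hs (Or.inr (Or.inl hz))]
      exact hFb _
    · rw [hH0b u q hq s hs (Or.inr (Or.inr (Or.inl hz)))]
      exact hFb _
    · rw [hH0b u q hq s hs (Or.inr (Or.inr (Or.inr hz)))]
      exact hFb _
  set C : Set R4 := {x | 1 ≤ nsq x.2} with hC
  have hCc : IsClosed C := isClosed_le continuous_const (cont_nsq.comp continuous_snd)
  have hH0C : ∀ z ∈ Q, H0 z ∉ C := by
    intro z _ hz
    have e1 : nsq (H0 z).2 < 1 := nsq_conv (hFn _) (hFn _) (hp1m z.1).1 (hp1m z.1).2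
    have e2 : 1 ≤ nsq (H0 z).2 := hz
    linarith
  have hfin : 3 < Module.finrank ℝ R4 := by
    simp [Module.finrank_prod, Complex.finrank_real_complex]
  obtain ⟨H2, hH2c, hH2D, hH2B, hH2C⟩ := avoid hfin BB_countable BB_closed BB_nonempty hCc hQc hDc
    hH0c hH0D hH0C
  have hn : ∀ z ∈ Q, nsq (H2 z).2 < 1 := by
    intro z hz
    by_contra h
    push Not at h
    exact hH2C z hz h
  have hmD : ∀ u ∈ Icc (0 : ℝ) 1, ∀ q ∈ Icc (0 : ℝ) 1, ∀ s ∈ Icc m₀ m₁,
      (u = 0 ∨ u = 1 ∨ q = 0 ∨ q = 1 ∨ s = m₀ ∨ s = m₁) → ((u, q, s) : ℝ × ℝ × ℝ) ∈ D := by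
    intro u hu q hq s hs h
    refine ⟨⟨hu, hq, hs⟩, ?_⟩
    simp only [mem_union, mem_ofPred_eq]
    tauto
  refine ⟨fun z => PP ρ (H2 z), ?_, ?_, ?_⟩
  · exact cont_PP ρ hH2c fun z hz => dd_ne (hn z hz) (hH2B z)
  · intro q hq s hs
    constructor
    · show PP ρ (H2 (0, q, s)) = f (q, s)
      rw [hH2D _ (hmD 0 h0m q hq s hs (Or.inl rfl)), hH00, hPF, hfe]
      simp only [hp1e q hq, hp2e s hs]
    · show PP ρ (H2 (1, q, s)) = γ s
      rw [hH2D _ (hmD 1 h1m q hq s hs (Or.inr (Or.inl rfl))), hH01, hPF, hfe]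
      simp only [hp1e 0 h0m, hp2e s hs]
      exact hbd 0 h0m s hs (Or.inl rfl)
  · intro u hu q hq s hs
    constructor
    · exact PP_off hρ (hn _ ⟨hu, hq, hs⟩) (hH2B _)
    · intro h
      show PP ρ (H2 (u, q, s)) = γ s
      rw [hH2D _ (hmD u hu q hq s hs (Or.inr (Or.inr h))), hH0b u q hq s hs h, hPF, hfe]
      simp only [hp1e 0 h0m, hp2e s hs]
      exact hbd 0 h0m s hs (Or.inl rfl)

end Pool.Agent.Helper27.S5
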